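import Mathlib
import Pool.Agent.H28.TJoin

set_option autoImplicit false

open Finset Filter Topology
open scoped NNReal ENNReal

namespace Pool.Agent.Results.MP_f46ce3_an.Beurling

open Pool.Agent.H28.TJoin

theorem fin_approx {V I : Type*} [Fintype V] [DecidableEq V] [Fintype I] [DecidableEq I]
    (d : V → V → ℝ) (x y : I → V) (l : I → ℝ) (hl : ∀ i, 0 ≤ l i)
    (h : ∀ α : I → ℝ, (∀ i, α i = 1 ∨ α i = -1) → ∃ g : V → ℝ, (∀ p q, |g p - g q| ≤ d p q) ∧
      ∀ i, g (x i) - g (y i) = α i * l i) (N : ℝ) (hN : 0 < N) :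
    ∃ f : I → V → ℝ, (∀ i, l i - 1 / N ≤ f i (x i) - f i (y i)) ∧
      (∀ j, ∑ i, |f i (x j) - f i (y j)| ≤ l j) ∧ ∀ p q, ∑ i, |f i p - f i q| ≤ d p q + 1 / N := by
  let s : I ⊕ (V × V) → V := Sum.elim x Prod.fst
  let t : I ⊕ (V × V) → V := Sum.elim y Prod.snd
  let F : I ⊕ (V × V) → ZMod 2 := Sum.elim (fun _ => 1) (fun _ => 0)
  let c : I ⊕ (V × V) → ℕ := Sum.elim (fun i => 2 * ⌊N * l i⌋₊) (fun p => 2 * ⌈N * d p.1 p.2⌉₊)
  have hd : ∀ p q, 0 ≤ d p q := by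
    obtain ⟨g, hg, -⟩ := h (fun _ => 1) (fun _ => Or.inl rfl)
    exact fun p q => (abs_nonneg _).trans (hg p q)
  have hmin : ∀ J, bd s t J = bd s t F → len c F ≤ len c J := by
    intro J hJ
    obtain ⟨σ, hσ, hg⟩ := orient _ s t (F + J) le_rfl (by rw [bd_add, hJ, fadd])
    obtain ⟨g, g1, g2⟩ := h (fun i => σ (Sum.inl i)) (fun i => hσ _)
    have h1 := hg g
    have h2 := wt_eq c F (F + J)
    rw [← add_assoc, fadd, zero_add] at h2
    suffices h3 : (0 : ℝ) ≤ (wt c F (F + J) : ℤ) by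
      have : 0 ≤ wt c F (F + J) := by exact_mod_cast h3
      omega
    generalize F + J = C at h1
    unfold wt
    rw [Fintype.sum_sum_type] at h1 ⊢
    simp only [s, t, F, c, Sum.elim_inl, Sum.elim_inr, g2, if_true, zero_ne_one, if_false] at h1 ⊢
    push_cast
    have a1 : ∑ i, ((C (Sum.inl i)).val : ℝ) * σ (Sum.inl i) * (σ (Sum.inl i) * l i)
        = ∑ i, ((C (Sum.inl i)).val : ℝ) * l i := by
      refine sum_congr rfl (fun i _ => ?_)
      rcases hσ (Sum.inl i) with p | p <;> rw [p] <;> ring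
    have a2 : -∑ p : V × V, ((C (Sum.inr p)).val : ℝ) * d p.1 p.2
        ≤ ∑ p : V × V, ((C (Sum.inr p)).val : ℝ) * σ (Sum.inr p) * (g p.1 - g p.2) := by
      rw [← sum_neg_distrib]
      refine sum_le_sum (fun p _ => ?_)
      have b1 := abs_le.1 (g1 p.1 p.2)
      have b2 : (0 : ℝ) ≤ ((C (Sum.inr p)).val : ℝ) := Nat.cast_nonneg _
      rcases hσ (Sum.inr p) with q | q <;> rw [q] <;> nlinarith [b1.1, b1.2]
    have a3 : -(2 * N) * ∑ i, ((C (Sum.inl i)).val : ℝ) * l i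
        ≤ ∑ i, ((C (Sum.inl i)).val : ℝ) * -(2 * (⌊N * l i⌋₊ : ℝ)) := by
      rw [mul_sum]
      refine sum_le_sum (fun i _ => ?_)
      have b1 := Nat.floor_le (mul_nonneg hN.le (hl i))
      have b2 : (0 : ℝ) ≤ ((C (Sum.inl i)).val : ℝ) := Nat.cast_nonneg _
      nlinarith
    have a4 : (2 * N) * ∑ p : V × V, ((C (Sum.inr p)).val : ℝ) * d p.1 p.2
        ≤ ∑ p : V × V, ((C (Sum.inr p)).val : ℝ) * (2 * (⌈N * d p.1 p.2⌉₊ : ℝ)) := by
      rw [mul_sum]
      refine sum_le_sum (fun p _ => ?_)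
      have b1 := Nat.le_ceil (N * d p.1 p.2)
      have b2 : (0 : ℝ) ≤ ((C (Sum.inr p)).val : ℝ) := Nat.cast_nonneg _
      nlinarith
    rw [a1] at h1
    nlinarith
  obtain ⟨f, f1, f2⟩ := seymour F _ s t c 0 (Nat.lt_succ_self _) (by
    rintro (i | p) <;> simp only [c, Sum.elim_inl, Sum.elim_inr, Pi.zero_apply, add_zero] <;>
      push_cast <;> rw [show (2 : ZMod 2) = 0 from rfl, zero_mul]) hmin
  have key : ∀ e', ∑ i, |(f (Sum.inl i) (s e') : ℝ) / (2 * N) - f (Sum.inl i) (t e') / (2 * N)|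
      ≤ c e' / (2 * N) := by
    intro e'
    have h1 := f2 e'
    rw [Fintype.sum_sum_type] at h1
    have h2 : 0 ≤ ∑ p : V × V, |f (Sum.inr p) (s e') - f (Sum.inr p) (t e')| :=
      sum_nonneg (fun _ _ => abs_nonneg _)
    have h3 : ((∑ i, |f (Sum.inl i) (s e') - f (Sum.inl i) (t e')| : ℤ) : ℝ) ≤ c e' := by
      exact_mod_cast (by linarith : ∑ i, |f (Sum.inl i) (s e') - f (Sum.inl i) (t e')| ≤ (c e' : ℤ))
    push_cast at h3
    simp only [← sub_div, abs_div, abs_of_pos (show 0 < 2 * N by positivity), ← sum_div]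
    exact div_le_div_of_nonneg_right h3 (by positivity)
  refine ⟨fun i v => f (Sum.inl i) v / (2 * N), fun i => ?_, fun j => ?_, fun p q => ?_⟩
  · have h1 : ((f (Sum.inl i) (x i) - f (Sum.inl i) (y i) : ℤ) : ℝ) = ((2 * ⌊N * l i⌋₊ : ℕ) : ℤ) := by
      exact congrArg (fun z : ℤ => (z : ℝ)) (f1 (Sum.inl i) rfl)
    push_cast at h1
    rw [← sub_div, h1, le_div_iff₀ (by positivity)]
    have := Nat.lt_floor_add_one (N * l i)
    have e : (l i - 1 / N) * (2 * N) = 2 * (N * l i) - 2 := by field_simp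
    rw [e]; linarith
  · refine (key (Sum.inl j)).trans ?_
    simp only [c, Sum.elim_inl]
    push_cast
    rw [div_le_iff₀ (by positivity)]
    have := Nat.floor_le (mul_nonneg hN.le (hl j))
    nlinarith
  · refine (key (Sum.inr (p, q))).trans ?_
    simp only [c, Sum.elim_inr]
    push_cast
    rw [div_le_iff₀ (by positivity)]
    have := Nat.ceil_lt_add_one (mul_nonneg hN.le (hd p q))
    have e : (d p q + 1 / N) * (2 * N) = 2 * (N * d p q) + 2 := by field_simp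
    rw [e]; linarith

theorem local_sol {X I : Type*} [MetricSpace X] (o : X) (x y : I → X) (K : ℝ)
    (h : ∀ α : I → ℝ, (∀ i, |α i| ≤ 1) → ∃ g : X → ℝ, (∀ p q, |g p - g q| ≤ K * dist p q) ∧
      ∀ i, g (x i) - g (y i) = α i * dist (x i) (y i))
    (V0 : Finset X) (I0 : Finset I) (N : ℝ) (hN : 0 < N) :
    ∃ f : I → X → ℝ, (∀ i, f i o = 0) ∧ (∀ i p, |f i p| ≤ |K| * dist p o + 1 / N) ∧
      (∀ i ∈ I0, dist (x i) (y i) - 1 / N ≤ f i (x i) - f i (y i)) ∧
      (∀ j ∈ I0, ∀ A ⊆ I0, ∑ i ∈ A, |f i (x j) - f i (y j)| ≤ dist (x j) (y j)) ∧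
      ∀ p ∈ V0, ∀ q ∈ V0, ∀ A ⊆ I0, ∑ i ∈ A, |f i p - f i q| ≤ K * dist p q + 1 / N := by
  classical
  let W : Finset X := insert o (V0 ∪ I0.image x ∪ I0.image y)
  have ho : o ∈ W := mem_insert_self _ _
  have hx : ∀ i ∈ I0, x i ∈ W := fun i hi => by simp only [W, mem_insert, mem_union, mem_image]; aesop
  have hy : ∀ i ∈ I0, y i ∈ W := fun i hi => by simp only [W, mem_insert, mem_union, mem_image]; aesop
  have hV : ∀ p ∈ V0, p ∈ W := fun p hp => by simp only [W, mem_insert, mem_union, mem_image]; aesop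
  obtain ⟨f, f1, f2, f3⟩ := fin_approx (V := W) (I := I0) (fun p q => K * dist (p : X) q)
    (fun i => ⟨x i, hx i i.2⟩) (fun i => ⟨y i, hy i i.2⟩) (fun i => dist (x i) (y i))
    (fun i => dist_nonneg) (by
      intro α hα
      obtain ⟨g, g1, g2⟩ := h (fun i => if hi : i ∈ I0 then α ⟨i, hi⟩ else 0) (by
        intro i
        split_ifs with hi
        · rcases hα ⟨i, hi⟩ with p | p <;> simp [p]
        · simp)
      exact ⟨fun p => g p, fun p q => g1 p q, fun i => by simpa [i.2] using g2 i⟩) N hN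
  let G : I → X → ℝ := fun i p =>
    if hi : i ∈ I0 then if hp : p ∈ W then f ⟨i, hi⟩ ⟨p, hp⟩ - f ⟨i, hi⟩ ⟨o, ho⟩ else 0 else 0
  have hG : ∀ i (hi : i ∈ I0) p (hp : p ∈ W) q (hq : q ∈ W),
      G i p - G i q = f ⟨i, hi⟩ ⟨p, hp⟩ - f ⟨i, hi⟩ ⟨q, hq⟩ := by
    intro i hi p hp q hq
    simp [G, hi, hp, hq]
  have hsum : ∀ p (hp : p ∈ W) q (hq : q ∈ W), ∀ A ⊆ I0,
      ∑ i ∈ A, |G i p - G i q| ≤ ∑ i, |f i ⟨p, hp⟩ - f i ⟨q, hq⟩| := by
    intro p hp q hq A hA
    refine (sum_le_sum_of_subset_of_nonneg hA (fun _ _ _ => abs_nonneg _)).trans (le_of_eq ?_)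
    rw [← sum_attach, univ_eq_attach]
    exact sum_congr rfl (fun i _ => by rw [hG i i.2 p hp q hq])
  refine ⟨G, fun i => by simp [G, ho], fun i p => ?_, fun i hi => ?_, fun j hj A hA => ?_,
    fun p hp q hq A hA => ?_⟩
  · simp only [G]
    split_ifs with hi hp
    · have h1 := f3 ⟨p, hp⟩ ⟨o, ho⟩
      have h2 := single_le_sum (f := fun i => |f i ⟨p, hp⟩ - f i ⟨o, ho⟩|) (fun _ _ => abs_nonneg _)
        (mem_univ ⟨i, hi⟩)
      have h3 : K * dist p o ≤ |K| * dist p o := mul_le_mul_of_nonneg_right (le_abs_self _) dist_nonneg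
      exact h2.trans (h1.trans (by linarith))
    · rw [abs_zero]; positivity
    · rw [abs_zero]; positivity
  · rw [hG i hi _ (hx i hi) _ (hy i hi)]; exact f1 ⟨i, hi⟩
  · exact (hsum _ (hx j hj) _ (hy j hj) A hA).trans (f2 ⟨j, hj⟩)
  · exact (hsum _ (hV p hp) _ (hV q hq) A hA).trans (f3 _ _)

theorem open_map {X I : Type*} [MetricSpace X] (o : X) (x y : I → X)
    (honto : ∀ α : lp (fun _ : I => ℝ) ∞, ∃ g : X → ℝ, g o = 0 ∧ (∃ K, LipschitzWith K g) ∧
      ∀ i, (g (x i) - g (y i)) / dist (x i) (y i) = α i) :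
    Set.Nonempty {K : ℝ≥0 | 1 ≤ K ∧ ∀ α : lp (fun _ : I => ℝ) ∞, ‖α‖ ≤ 1 →
      ∃ g : X → ℝ, g o = 0 ∧ LipschitzWith K g ∧ ∀ i, (g (x i) - g (y i)) / dist (x i) (y i) = α i} := by
  let Kn : ℕ → Set (X → ℝ) := fun n => {g | g o = 0 ∧ ∀ p q, |g p - g q| ≤ n * dist p q}
  have hKn : ∀ n, IsCompact (Kn n) := by
    intro n
    refine (isCompact_univ_pi (fun p => isCompact_Icc (a := -(n * dist p o)) (b := n * dist p o))).of_isClosed_subset ?_ ?_
    · simp only [Kn, Set.setOf_and, Set.setOf_forall]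
      refine (isClosed_eq (continuous_apply o) continuous_const).inter
        (isClosed_iInter (fun p => isClosed_iInter (fun q => isClosed_le (by fun_prop) continuous_const)))
    · intro g hg p _
      have := hg.2 p o
      rw [hg.1, sub_zero] at this
      exact abs_le.1 this
  let Φ : (X → ℝ) → (I → ℝ) := fun g i => (g (x i) - g (y i)) / dist (x i) (y i)
  have hΦ : Continuous Φ := by fun_prop
  let A : ℕ → Set (lp (fun _ : I => ℝ) ∞) := fun n => (fun α => (α : I → ℝ)) ⁻¹' (Φ '' Kn n)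
  have hA : ∀ n, IsClosed (A n) := fun n =>
    ((hKn n).image hΦ).isClosed.preimage lp.uniformContinuous_coe.continuous
  have hU : ⋃ n, A n = Set.univ := by
    refine Set.eq_univ_of_forall (fun α => ?_)
    obtain ⟨g, g0, ⟨K, hK⟩, g2⟩ := honto α
    refine Set.mem_iUnion.2 ⟨⌈(K : ℝ)⌉₊, g, ⟨g0, fun p q => ?_⟩, funext g2⟩
    exact (hK.dist_le_mul p q).trans (mul_le_mul_of_nonneg_right (Nat.le_ceil _) dist_nonneg)
  obtain ⟨n, α0, hα0⟩ := nonempty_interior_of_iUnion_of_closed hA hU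
  obtain ⟨r, hr, hball⟩ := Metric.mem_nhds_iff.1 (mem_interior_iff_mem_nhds.1 hα0)
  refine ⟨max 1 (Real.toNNReal (2 * n / r)), le_max_left _ _, fun β hβ => ?_⟩
  have hn : ‖(r / 2) • β‖ < r := by
    rw [norm_smul, Real.norm_eq_abs, abs_of_pos (by positivity)]; nlinarith [norm_nonneg β]
  obtain ⟨g1, ⟨a1, b1⟩, c1⟩ := hball (show α0 + (r / 2) • β ∈ Metric.ball α0 r by
    rw [mem_ball_iff_norm, add_sub_cancel_left]; exact hn)
  obtain ⟨g2, ⟨a2, b2⟩, c2⟩ := hball (show α0 - (r / 2) • β ∈ Metric.ball α0 r by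
    rw [mem_ball_iff_norm, sub_sub_cancel_left, norm_neg]; exact hn)
  refine ⟨fun p => (g1 p - g2 p) / r, by simp [a1, a2], ?_, fun i => ?_⟩
  · refine LipschitzWith.of_dist_le_mul (fun p q => ?_)
    have h1 : 2 * n / r ≤ ((max 1 (Real.toNNReal (2 * n / r)) : ℝ≥0) : ℝ) := by
      push_cast
      exact le_max_of_le_right (Real.le_coe_toNNReal _)
    refine le_trans ?_ (mul_le_mul_of_nonneg_right h1 dist_nonneg)
    rw [Real.dist_eq, ← sub_div, abs_div, abs_of_pos hr, div_mul_eq_mul_div]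
    apply div_le_div_of_nonneg_right _ hr.le
    have e : g1 p - g2 p - (g1 q - g2 q) = (g1 p - g1 q) - (g2 p - g2 q) := by ring
    rw [e]
    linarith [abs_sub (g1 p - g1 q) (g2 p - g2 q), b1 p q, b2 p q]
  · have d1 := congrFun c1 i
    have d2 := congrFun c2 i
    simp only [Φ, lp.coeFn_add, lp.coeFn_sub, lp.coeFn_smul, Pi.add_apply, Pi.sub_apply, Pi.smul_apply,
      smul_eq_mul] at d1 d2
    have e : ((g1 (x i) - g2 (x i)) / r - (g1 (y i) - g2 (y i)) / r) / dist (x i) (y i)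
        = ((g1 (x i) - g1 (y i)) / dist (x i) (y i) - (g2 (x i) - g2 (y i)) / dist (x i) (y i)) / r := by
      ring
    rw [e, d1, d2]
    field_simp
    ring

theorem result {X I : Type*} [MetricSpace X] [DecidableEq I] [Nonempty I] (o : X) (x y : I → X)
    (hxy : ∀ i, x i ≠ y i)
    (honto : ∀ α : lp (fun _ : I => ℝ) ∞, ∃ g : X → ℝ, g o = 0 ∧ (∃ K, LipschitzWith K g) ∧
      ∀ i, (g (x i) - g (y i)) / dist (x i) (y i) = α i)
    (M : ℝ≥0)
    (hM : M = sInf {K : ℝ≥0 | 1 ≤ K ∧ ∀ α : lp (fun _ : I => ℝ) ∞, ‖α‖ ≤ 1 →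
      ∃ g : X → ℝ, g o = 0 ∧ LipschitzWith K g ∧ ∀ i, (g (x i) - g (y i)) / dist (x i) (y i) = α i}) :
    ∃ f : I → X → ℝ, (∀ i, f i o = 0 ∧ ∃ K, LipschitzWith K (f i)) ∧
      (∀ i j, (f i (x j) - f i (y j)) / dist (x j) (y j) = if i = j then 1 else 0) ∧
      ∀ p q : X, p ≠ q → ∑' i, ENNReal.ofReal |(f i p - f i q) / dist p q| ≤ (M : ℝ≥0∞) := by
  have hne := open_map o x y honto
  have hK : ∀ n : ℕ, ∀ α : I → ℝ, (∀ i, |α i| ≤ 1) → ∃ g : X → ℝ,
      (∀ p q, |g p - g q| ≤ (M + 1 / ((n : ℝ) + 1)) * dist p q) ∧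
      ∀ i, g (x i) - g (y i) = α i * dist (x i) (y i) := by
    intro n α hα
    have hlt : M < M + 1 / ((n : ℝ≥0) + 1) := lt_add_of_pos_right _ (by positivity)
    obtain ⟨K, ⟨-, hK⟩, hKM⟩ := exists_lt_of_csInf_lt hne (hM ▸ hlt)
    let β : lp (fun _ : I => ℝ) ∞ := ⟨α, memℓp_infty ⟨1, by rintro _ ⟨i, rfl⟩; exact hα i⟩⟩
    obtain ⟨g, -, g1, g2⟩ := hK β (lp.norm_le_of_forall_le zero_le_one (fun i => hα i))
    refine ⟨g, fun p q => (g1.dist_le_mul p q).trans (mul_le_mul_of_nonneg_right ?_ dist_nonneg),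
      fun i => ?_⟩
    · rw [← hM] at hKM
      exact_mod_cast hKM.le
    · exact (div_eq_iff (dist_pos.2 (hxy i)).ne').1 (g2 i)
  have hloc := fun τ : Finset X × Finset I × ℕ => local_sol o x y _ (hK τ.2.2) τ.1 τ.2.1
    ((τ.2.2 : ℝ) + 1) (by positivity)
  choose f f0 f1 f2 f3 f4 using hloc
  haveI := Classical.decEq X
  let U : Ultrafilter (Finset X × Finset I × ℕ) := Ultrafilter.of atTop
  have hU : (U : Filter (Finset X × Finset I × ℕ)) ≤ atTop := Ultrafilter.of_le _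
  have hle1 : ∀ n : ℕ, 1 / ((n : ℝ) + 1) ≤ 1 := fun n => by
    rw [div_le_one (by positivity)]; linarith [(Nat.cast_nonneg n : (0 : ℝ) ≤ n)]
  have hlim : ∀ i p, ∃ a, Tendsto (fun τ => f τ i p) U (𝓝 a) := by
    intro i p
    obtain ⟨a, -, ha⟩ := (isCompact_Icc (a := -((M + 1) * dist p o + 1)) (b := (M + 1) * dist p o + 1)).ultrafilter_le_nhds
      (U.map (fun τ => f τ i p)) (by
        rw [le_principal_iff, Ultrafilter.coe_map, Filter.mem_map]
        refine Eventually.of_forall (fun τ => abs_le.1 ((f1 τ i p).trans ?_))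
        rw [abs_of_nonneg (by positivity)]
        have := hle1 τ.2.2
        gcongr)
    exact ⟨a, ha⟩
  choose F hF using hlim
  have hε : Tendsto (fun τ : Finset X × Finset I × ℕ => 1 / ((τ.2.2 : ℝ) + 1)) U (𝓝 0) :=
    (tendsto_one_div_add_atTop_nhds_zero_nat.comp (tendsto_atTop.2 (fun b =>
      (eventually_ge_atTop ((∅, ∅, b) : Finset X × Finset I × ℕ)).mono (fun τ h => h.2.2)))).mono_left hU
  have hev : ∀ (B : Finset X) (A : Finset I), ∀ᶠ τ in (U : Filter (Finset X × Finset I × ℕ)),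
      B ⊆ τ.1 ∧ A ⊆ τ.2.1 := fun B A =>
    hU ((eventually_ge_atTop ((B, A, 0) : Finset X × Finset I × ℕ)).mono (fun τ h => ⟨h.1, h.2.1⟩))
  have hs : ∀ (A : Finset I) p q, Tendsto (fun τ => ∑ i ∈ A, |f τ i p - f τ i q|) U
      (𝓝 (∑ i ∈ A, |F i p - F i q|)) := fun A p q =>
    tendsto_finset_sum _ (fun i _ => ((hF i p).sub (hF i q)).abs)
  have F0 : ∀ i, F i o = 0 := fun i =>
    tendsto_nhds_unique (hF i o) (by simp only [f0]; exact tendsto_const_nhds)
  have F2 : ∀ i, dist (x i) (y i) ≤ F i (x i) - F i (y i) := by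
    intro i
    have := le_of_tendsto_of_tendsto (tendsto_const_nhds.sub hε) ((hF i (x i)).sub (hF i (y i)))
      ((hev ∅ {i}).mono (fun τ h => f2 τ i (h.2 (mem_singleton_self i))))
    simpa using this
  have F3 : ∀ j (A : Finset I), ∑ i ∈ A, |F i (x j) - F i (y j)| ≤ dist (x j) (y j) := by
    intro j A
    exact le_of_tendsto (hs A _ _) ((hev ∅ (insert j A)).mono (fun τ h =>
      f3 τ j (h.2 (mem_insert_self _ _)) A ((subset_insert _ _).trans h.2)))
  have F4 : ∀ p q (A : Finset I), ∑ i ∈ A, |F i p - F i q| ≤ M * dist p q := by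
    intro p q A
    have := le_of_tendsto_of_tendsto (hs A p q)
      (((tendsto_const_nhds.add hε).mul_const (dist p q)).add hε)
      ((hev {p, q} A).mono (fun τ h => f4 τ p (h.1 (by simp)) q (h.1 (by simp)) A h.2))
    simpa using this
  refine ⟨F, fun i => ⟨F0 i, M, LipschitzWith.of_dist_le_mul (fun p q => ?_)⟩, fun i j => ?_,
    fun p q hpq => ?_⟩
  · simpa [Real.dist_eq] using F4 p q {i}
  · have hd := dist_pos.2 (hxy j)
    have h1 := F3 j {j}
    rw [sum_singleton] at h1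
    split_ifs with h
    · subst h
      rw [div_eq_one_iff_eq hd.ne']
      exact le_antisymm ((le_abs_self _).trans h1) (F2 i)
    · have h2 := F3 j {i, j}
      rw [sum_pair h] at h2
      have h3 := (F2 j).trans (le_abs_self _)
      have h4 : |F i (x j) - F i (y j)| = 0 := le_antisymm (by linarith) (abs_nonneg _)
      rw [abs_eq_zero.1 h4, zero_div]
  · have hd := dist_pos.2 hpq
    rw [ENNReal.tsum_eq_iSup_sum]
    refine iSup_le (fun A => ?_)
    rw [← ENNReal.ofReal_sum_of_nonneg (fun _ _ => abs_nonneg _), ← ENNReal.ofReal_coe_nnreal]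
    apply ENNReal.ofReal_le_ofReal
    simp only [abs_div, abs_of_pos hd, ← sum_div]
    rw [div_le_iff₀ hd]
    exact F4 p q A

end Pool.Agent.Results.MP_f46ce3_an.Beurling
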